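import Pool.Agent.helper22.EC.Defs
import Pool.Agent.helper34.EC.LE

/-!
# MP_00de39_al (project EC): modules ec:PR1 and ec:PR2, primitive recursion
-/

set_option autoImplicit false
set_option linter.unusedSectionVars false

namespace Pool.Agent.helper22.EC

open FreeGroup

/-- membership -/
def MemP (n : ℕ) (w : List (ℕ × Bool)) (us : List (List (ℕ × Bool))) : Prop := wd n w ∈ sg n us

/-- substitution -/
def sub (fs : List (List (ℕ × Bool))) (w : List (ℕ × Bool)) : List (ℕ × Bool) :=
  w.flatMap fun l => if l.2 then fs.getD l.1 [] else FreeGroup.invRev (fs.getD l.1 [])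

/-- all lists of length at most `m` with entries in `l` -/
def lists {β : Type} (l : List β) : ℕ → List (List β)
  | 0 => [[]]
  | m + 1 => [] :: (lists l m).flatMap fun r => l.map fun x => x :: r

/-- all words of length at most `B` in the letters `0, ..., n-1` -/
def words (n B : ℕ) : List (List (ℕ × Bool)) :=
  lists ((List.range n).flatMap fun i => [(i, true), (i, false)]) B

/-- the certificate -/
def Cert (n : ℕ) (ws fs gs bs : List (List (ℕ × Bool))) : Prop :=
  (∀ i < n, MemP n (sub fs (sub gs [(i, true)]) ++ [(i, false)]) [] ∧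
    MemP n (sub gs (sub fs [(i, true)]) ++ [(i, false)]) []) ∧
  (∀ i < n, (∀ l ∈ bs.getD i [], l.1 ≤ i) ∧ (bs.getD i [] = [] ∨
    ¬ MemP n (bs.getD i []) ((List.range i).map fun j => [(j, true)]))) ∧
  (∀ i < n, MemP n (bs.getD i []) (ws.map (sub fs))) ∧
  (∀ w ∈ ws, MemP n (sub fs w) ((List.range n).map fun i => bs.getD i []))

/-! ## Closure properties in context form -/

section Ctx

variable {γ α β : Type} [Primcodable γ] [Primcodable α] [Primcodable β]

theorem PR_ball {f : γ → List α} {R : γ → α → Prop} (hf : Primrec f)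
    (hR : PrimrecPred (fun p : γ × α => R p.1 p.2)) : PrimrecPred fun c => ∀ a ∈ f c, R c a := by
  have h1 : PrimrecRel (fun (a : α) (c : γ) => R c a) := 
    hR.comp (f := fun p : α × γ => (p.2, p.1)) (Primrec.pair Primrec.snd Primrec.fst)
  exact h1.forall_mem_list.comp hf Primrec.id

theorem PR_bex {f : γ → List α} {R : γ → α → Prop} (hf : Primrec f)
    (hR : PrimrecPred (fun p : γ × α => R p.1 p.2)) : PrimrecPred fun c => ∃ a ∈ f c, R c a := by
  have h1 : PrimrecRel (fun (a : α) (c : γ) => R c a) := 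
    hR.comp (f := fun p : α × γ => (p.2, p.1)) (Primrec.pair Primrec.snd Primrec.fst)
  exact h1.exists_mem_list.comp hf Primrec.id

theorem PR_ballt {f : γ → ℕ} {R : γ → ℕ → Prop} (hf : Primrec f)
    (hR : PrimrecPred (fun p : γ × ℕ => R p.1 p.2)) : PrimrecPred fun c => ∀ a < f c, R c a := by
  refine (PR_ball (Primrec.list_range.comp hf) hR).of_eq fun c => ?_
  simp

theorem PR_imp {p q : γ → Prop} (hp : PrimrecPred p) (hq : PrimrecPred q) :
    PrimrecPred fun c => p c → q c := by
  refine (hp.not.or hq).of_eq fun c => ?_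
  tauto

theorem PR_getD {f : γ → List α} {i : γ → ℕ} (d : α) (hf : Primrec f) (hi : Primrec i) :
    Primrec fun c => (f c).getD (i c) d := (Primrec.list_getD d).comp hf hi

theorem PR_lists {f : γ → List α} {m : γ → ℕ} (hf : Primrec f) (hm : Primrec m) :
    Primrec fun c => lists (f c) (m c) := by
  have h1 : Primrec₂ (fun (c : γ) (q : ℕ × List (List α)) =>
      [] :: q.2.flatMap fun r => (f c).map fun x => x :: r) := by
    apply Primrec.list_cons.comp (Primrec.const [])
    apply Primrec.list_flatMap (Primrec.snd.comp Primrec.snd)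
    apply Primrec.list_map (hf.comp (Primrec.fst.comp Primrec.fst))
    exact Primrec.list_cons.comp Primrec.snd (Primrec.snd.comp Primrec.fst)
  refine (Primrec.nat_rec' hm (Primrec.const [[]]) h1).of_eq fun c => ?_
  generalize m c = k
  induction k with
  | zero => rfl
  | succ k ih => simp [lists, ih]

end Ctx

theorem mem_lists {β : Type} (l : List β) (m : ℕ) (L : List β) :
    L ∈ lists l m ↔ L.length ≤ m ∧ ∀ x ∈ L, x ∈ l := by
  induction m generalizing L with
  | zero =>
    simp only [lists, List.mem_singleton, Nat.le_zero, List.length_eq_zero_iff]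
    constructor
    · rintro rfl
      simp
    · exact fun h => h.1
  | succ m ih =>
    simp only [lists, List.mem_cons, List.mem_flatMap, List.mem_map]
    constructor
    · rintro (rfl | ⟨r, hr, x, hx, rfl⟩)
      · simp
      · rw [ih] at hr
        refine ⟨by simpa using hr.1, ?_⟩
        intro y hy
        rcases List.mem_cons.mp hy with rfl | hy
        · exact hx
        · exact hr.2 y hy
    · rintro ⟨h1, h2⟩
      cases L with
      | nil => exact Or.inl rfl
      | cons x r =>
        refine Or.inr ⟨r, ?_, x, h2 x (by simp), rfl⟩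
        rw [ih]
        exact ⟨by simpa using h1, fun y hy => h2 y (by simp [hy])⟩

/-! ## Tables -/

/-- one letter acts -/
def PR_st (n : ℕ) (T : List (List ℕ × List ℕ)) (l : ℕ × Bool) (x : ℕ) : ℕ :=
  if l.1 < n then (if l.2 = true then (T.getD l.1 ([], [])).1.getD x 0
    else (T.getD l.1 ([], [])).2.getD x 0) else x

/-- a word acts -/
def PR_ev (n : ℕ) (T : List (List ℕ × List ℕ)) (w : List (ℕ × Bool)) (x : ℕ) : ℕ :=
  w.foldr (fun l y => PR_st n T l y) x

/-- valid tables -/
def PR_V (n M : ℕ) (T : List (List ℕ × List ℕ)) : Prop :=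
  ∀ i < n, ∀ x < M, (T.getD i ([], [])).1.getD x 0 < M ∧ (T.getD i ([], [])).2.getD x 0 < M ∧
    (T.getD i ([], [])).2.getD ((T.getD i ([], [])).1.getD x 0) 0 = x ∧
    (T.getD i ([], [])).1.getD ((T.getD i ([], [])).2.getD x 0) 0 = x

/-- size -/
def PR_M (w : List (ℕ × Bool)) (us : List (List (ℕ × Bool))) : ℕ :=
  w.length + (us.map List.length).sum + 1

/-- all pairs of lists -/
def PR_pairs (M : ℕ) : List (List ℕ × List ℕ) :=
  (lists (List.range M) M).flatMap fun f => (lists (List.range M) M).map fun g => (f, g)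

/-- the test -/
def PR_T (n : ℕ) (w : List (ℕ × Bool)) (us : List (List (ℕ × Bool))) : Prop :=
  ∀ T ∈ lists (PR_pairs (PR_M w us)) n, (PR_V n (PR_M w us) T ∧ ∀ u ∈ us, PR_ev n T u 0 = 0) →
    PR_ev n T w 0 = 0

section PrimTest

variable {γ : Type} [Primcodable γ]

theorem PR_st_prim {n : γ → ℕ} {T : γ → List (List ℕ × List ℕ)} {l : γ → ℕ × Bool} {x : γ → ℕ}
    (hn : Primrec n) (hT : Primrec T) (hl : Primrec l) (hx : Primrec x) :
    Primrec fun c => PR_st (n c) (T c) (l c) (x c) := by
  have h1 : Primrec fun c => (T c).getD (l c).1 ([], []) :=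
    PR_getD _ hT (Primrec.fst.comp hl)
  unfold PR_st
  apply Primrec.ite (Primrec.nat_lt.comp (Primrec.fst.comp hl) hn)
  · apply Primrec.ite (Primrec.eq.comp (Primrec.snd.comp hl) (Primrec.const true))
    · exact PR_getD _ (Primrec.fst.comp h1) hx
    · exact PR_getD _ (Primrec.snd.comp h1) hx
  · exact hx

theorem PR_ev_prim {n : γ → ℕ} {T : γ → List (List ℕ × List ℕ)} {w : γ → List (ℕ × Bool)}
    {x : γ → ℕ} (hn : Primrec n) (hT : Primrec T) (hw : Primrec w) (hx : Primrec x) :
    Primrec fun c => PR_ev (n c) (T c) (w c) (x c) := by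
  unfold PR_ev
  refine Primrec.list_foldr (h := fun c (q : (ℕ × Bool) × ℕ) => PR_st (n c) (T c) q.1 q.2)
    hw hx ?_
  exact PR_st_prim (hn.comp Primrec.fst) (hT.comp Primrec.fst) (Primrec.fst.comp Primrec.snd)
    (Primrec.snd.comp Primrec.snd)

theorem PR_V_prim {n M : γ → ℕ} {T : γ → List (List ℕ × List ℕ)}
    (hn : Primrec n) (hM : Primrec M) (hT : Primrec T) :
    PrimrecPred fun c => PR_V (n c) (M c) (T c) := by
  unfold PR_V
  apply PR_ballt hn
  apply PR_ballt (hM.comp Primrec.fst)
  have hT' : Primrec fun p : (γ × ℕ) × ℕ => (T p.1.1).getD p.1.2 ([], []) :=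
    PR_getD _ (hT.comp (Primrec.fst.comp Primrec.fst)) (Primrec.snd.comp Primrec.fst)
  have hM' : Primrec fun p : (γ × ℕ) × ℕ => M p.1.1 := hM.comp (Primrec.fst.comp Primrec.fst)
  have h1 : Primrec fun p : (γ × ℕ) × ℕ => ((T p.1.1).getD p.1.2 ([], [])).1.getD p.2 0 :=
    PR_getD _ (Primrec.fst.comp hT') Primrec.snd
  have h2 : Primrec fun p : (γ × ℕ) × ℕ => ((T p.1.1).getD p.1.2 ([], [])).2.getD p.2 0 :=
    PR_getD _ (Primrec.snd.comp hT') Primrec.snd
  refine (Primrec.nat_lt.comp h1 hM').and ((Primrec.nat_lt.comp h2 hM').and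
    ((Primrec.eq.comp (PR_getD _ (Primrec.snd.comp hT') h1) Primrec.snd).and
      (Primrec.eq.comp (PR_getD _ (Primrec.fst.comp hT') h2) Primrec.snd)))

theorem PR_sum_prim {f : γ → List ℕ} (hf : Primrec f) : Primrec fun c => (f c).sum := by
  refine (Primrec.list_foldr (h := fun _ (q : ℕ × ℕ) => q.1 + q.2) hf (Primrec.const 0) ?_).of_eq
    fun c => ?_
  · exact Primrec.nat_add.comp (Primrec.fst.comp Primrec.snd) (Primrec.snd.comp Primrec.snd)
  · rfl

theorem PR_M_prim {w : γ → List (ℕ × Bool)} {us : γ → List (List (ℕ × Bool))}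
    (hw : Primrec w) (hus : Primrec us) : Primrec fun c => PR_M (w c) (us c) := by
  unfold PR_M
  apply Primrec.succ.comp
  apply Primrec.nat_add.comp (Primrec.list_length.comp hw)
  apply PR_sum_prim
  exact Primrec.list_map hus (Primrec.list_length.comp Primrec.snd)

theorem PR_pairs_prim {M : γ → ℕ} (hM : Primrec M) : Primrec fun c => PR_pairs (M c) := by
  unfold PR_pairs
  have h1 : Primrec fun c => lists (List.range (M c)) (M c) :=
    PR_lists (Primrec.list_range.comp hM) hM
  apply Primrec.list_flatMap h1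
  apply Primrec.list_map (h1.comp Primrec.fst)
  exact Primrec.pair (Primrec.snd.comp Primrec.fst) Primrec.snd

theorem PR_T_prim {n : γ → ℕ} {w : γ → List (ℕ × Bool)} {us : γ → List (List (ℕ × Bool))}
    (hn : Primrec n) (hw : Primrec w) (hus : Primrec us) :
    PrimrecPred fun c => PR_T (n c) (w c) (us c) := by
  unfold PR_T
  have hM := PR_M_prim hw hus
  apply PR_ball (PR_lists (PR_pairs_prim hM) hn)
  apply PR_imp
  · apply PrimrecPred.and
    · exact PR_V_prim (hn.comp Primrec.fst) (hM.comp Primrec.fst) Primrec.snd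
    · apply PR_ball (hus.comp Primrec.fst)
      exact Primrec.eq.comp (PR_ev_prim (hn.comp (Primrec.fst.comp Primrec.fst))
        (Primrec.snd.comp Primrec.fst) Primrec.snd (Primrec.const 0)) (Primrec.const 0)
  · exact Primrec.eq.comp (PR_ev_prim (hn.comp Primrec.fst)
        Primrec.snd (hw.comp Primrec.fst) (Primrec.const 0)) (Primrec.const 0)

end PrimTest

/-! ## Correctness -/

theorem PR_wd_cons (n : ℕ) (l : ℕ × Bool) (w : List (ℕ × Bool)) :
    wd n (l :: w) = (if h : l.1 < n then (FreeGroup.mk [(⟨l.1, h⟩, l.2)] : FreeGroup (Fin n))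
      else 1) * wd n w := by
  simp [wd]

theorem PR_norm_wd (n : ℕ) (w : List (ℕ × Bool)) : FreeGroup.norm (wd n w) ≤ w.length := by
  induction w with
  | nil => simp [wd]
  | cons l w ih =>
    rw [PR_wd_cons]
    refine (FreeGroup.norm_mul_le _ _).trans ?_
    rw [List.length_cons, add_comm]
    apply Nat.add_le_add ih
    split_ifs
    · exact FreeGroup.norm_mk_le
    · simp

theorem PR_sem {n M : ℕ} (T : List (List ℕ × List ℕ)) (σ : Fin n → Equiv.Perm (Fin M))
    (h1 : ∀ (i : Fin n) (x : Fin M), (T.getD i.val ([], [])).1.getD x.val 0 = (σ i x).val)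
    (h2 : ∀ (i : Fin n) (x : Fin M), (T.getD i.val ([], [])).2.getD x.val 0 = ((σ i)⁻¹ x).val)
    (w : List (ℕ × Bool)) (x : Fin M) :
    PR_ev n T w x.val = (FreeGroup.lift σ (wd n w) x).val := by
  induction w with
  | nil => simp [PR_ev, wd]
  | cons l w ih =>
    rw [PR_wd_cons, _root_.map_mul, Equiv.Perm.mul_apply]
    show PR_st n T l (PR_ev n T w x.val) = _
    rw [ih]
    generalize (FreeGroup.lift σ (wd n w)) x = y
    obtain ⟨i, b⟩ := l
    unfold PR_st
    by_cases hi : i < n
    · simp only [hi, if_true, dif_pos]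
      cases b
      · have := h2 ⟨i, hi⟩ y
        simp only [Bool.false_eq_true, if_false]
        rw [this]
        simp [FreeGroup.lift_mk]
      · have := h1 ⟨i, hi⟩ y
        simp only [if_true]
        rw [this]
        simp [FreeGroup.lift_mk]
    · simp [hi]

theorem PR_correct (n : ℕ) (w : List (ℕ × Bool)) (us : List (List (ℕ × Bool))) :
    MemP n w us ↔ PR_T n w us := by
  constructor
  · rintro h T hT ⟨hV, hu⟩
    have hM : 0 < PR_M w us := Nat.succ_pos _
    let σ : Fin n → Equiv.Perm (Fin (PR_M w us)) := fun i =>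
      { toFun := fun x => ⟨(T.getD i.val ([], [])).1.getD x.val 0, (hV i.1 i.2 x.1 x.2).1⟩
        invFun := fun x => ⟨(T.getD i.val ([], [])).2.getD x.val 0, (hV i.1 i.2 x.1 x.2).2.1⟩
        left_inv := fun x => Fin.ext (hV i.1 i.2 x.1 x.2).2.2.1
        right_inv := fun x => Fin.ext (hV i.1 i.2 x.1 x.2).2.2.2 }
    have hsem := PR_sem T σ (fun _ _ => rfl) (fun _ _ => rfl)
    let o : Fin (PR_M w us) := ⟨0, hM⟩
    have hle : sg n us ≤ (MulAction.stabilizer (Equiv.Perm (Fin (PR_M w us))) o).comap
        (FreeGroup.lift σ) := by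
      rw [sg, Subgroup.closure_le]
      rintro g ⟨u, hus, rfl⟩
      show FreeGroup.lift σ (wd n u) o = o
      apply Fin.ext
      rw [← hsem u o]
      exact hu u hus
    have hw : FreeGroup.lift σ (wd n w) o = o := hle h
    have := hsem w o
    rw [hw] at this
    exact this
  · intro h
    by_contra hc
    have hset : sg n us = Subgroup.closure {g | g ∈ us.map (wd n)} := by
      rw [sg]
      congr 1
      ext g
      simp only [Set.mem_ofPred_eq, List.mem_map]
      constructor
      · rintro ⟨u, hu, rfl⟩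
        exact ⟨u, hu, rfl⟩
      · rintro ⟨u, hu, rfl⟩
        exact ⟨u, hu, rfl⟩
    have hc' : wd n w ∉ Subgroup.closure {g | g ∈ us.map (wd n)} := by
      rw [← hset]
      exact hc
    have hM : ((us.map (wd n)).map FreeGroup.norm).sum + FreeGroup.norm (wd n w) < PR_M w us := by
      have h1 : ((us.map (wd n)).map FreeGroup.norm).sum ≤ (us.map List.length).sum := by
        rw [List.map_map]
        apply List.sum_le_sum
        intro u _
        exact PR_norm_wd n u
      have h2 := PR_norm_wd n w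
      unfold PR_M
      omega
    obtain ⟨σ, o, ho, hu, hw⟩ := lerf _ _ _ hM hc'
    let T : List (List ℕ × List ℕ) := List.ofFn fun i : Fin n =>
      (List.ofFn fun x : Fin (PR_M w us) => (σ i x).val,
        List.ofFn fun x : Fin (PR_M w us) => ((σ i)⁻¹ x).val)
    have hT : ∀ i : Fin n, T.getD i.val ([], []) = (List.ofFn fun x : Fin (PR_M w us) => (σ i x).val,
        List.ofFn fun x : Fin (PR_M w us) => ((σ i)⁻¹ x).val) := by
      intro i
      simp [T, List.getD_eq_getElem?_getD]
    have h1 : ∀ (i : Fin n) (x : Fin (PR_M w us)),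
        (T.getD i.val ([], [])).1.getD x.val 0 = (σ i x).val := by
      intro i x
      rw [hT]
      simp [List.getD_eq_getElem?_getD]
    have h2 : ∀ (i : Fin n) (x : Fin (PR_M w us)),
        (T.getD i.val ([], [])).2.getD x.val 0 = ((σ i)⁻¹ x).val := by
      intro i x
      rw [hT]
      simp [List.getD_eq_getElem?_getD]
    have hsem := PR_sem T σ h1 h2
    apply hw
    apply Fin.ext
    rw [← hsem, ho]
    apply h T
    · rw [mem_lists]
      refine ⟨by simp [T], ?_⟩
      intro q hq
      simp only [T, List.mem_ofFn] at hq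
      obtain ⟨i, rfl⟩ := hq
      simp only [PR_pairs, List.mem_flatMap, List.mem_map]
      refine ⟨_, ?_, _, ?_, rfl⟩
      · rw [mem_lists]
        refine ⟨by simp, ?_⟩
        intro y hy
        obtain ⟨x, rfl⟩ := (List.mem_ofFn' _ _).mp hy
        simp
      · rw [mem_lists]
        refine ⟨by simp, ?_⟩
        intro y hy
        obtain ⟨x, rfl⟩ := (List.mem_ofFn' _ _).mp hy
        simp
    · constructor
      · intro i hi x hx
        have e1 := h1 ⟨i, hi⟩ ⟨x, hx⟩
        have e2 := h2 ⟨i, hi⟩ ⟨x, hx⟩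
        simp only at e1 e2
        have e3 := h2 ⟨i, hi⟩ (σ ⟨i, hi⟩ ⟨x, hx⟩)
        have e4 := h1 ⟨i, hi⟩ ((σ ⟨i, hi⟩)⁻¹ ⟨x, hx⟩)
        simp only at e3 e4
        rw [e1, e2, e3, e4]
        simp
      · intro u hus
        have := hu (wd n u) (List.mem_map_of_mem hus)
        have h3 := hsem u o
        rw [this, ho] at h3
        exact h3

theorem mem_prim : PrimrecPred (fun p : ℕ × List (ℕ × Bool) × List (List (ℕ × Bool)) =>
    MemP p.1 p.2.1 p.2.2) := by
  refine (PR_T_prim Primrec.fst (Primrec.fst.comp Primrec.snd)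
    (Primrec.snd.comp Primrec.snd)).of_eq fun p => ?_
  exact (PR_correct p.1 p.2.1 p.2.2).symm

/-! ## ec:PR2 -/

section PR2

variable {γ : Type} [Primcodable γ]

theorem PR_MemP {n : γ → ℕ} {w : γ → List (ℕ × Bool)} {us : γ → List (List (ℕ × Bool))}
    (hn : Primrec n) (hw : Primrec w) (hus : Primrec us) :
    PrimrecPred fun c => MemP (n c) (w c) (us c) :=
  mem_prim.comp (Primrec.pair hn (Primrec.pair hw hus))

theorem PR_invRev {w : γ → List (ℕ × Bool)} (hw : Primrec w) :
    Primrec fun c => FreeGroup.invRev (w c) := by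
  unfold FreeGroup.invRev
  apply Primrec.list_reverse.comp
  apply Primrec.list_map hw
  exact Primrec.pair (Primrec.fst.comp Primrec.snd)
    (Primrec.not.comp (Primrec.snd.comp Primrec.snd))

theorem PR_sub {fs : γ → List (List (ℕ × Bool))} {w : γ → List (ℕ × Bool)}
    (hfs : Primrec fs) (hw : Primrec w) : Primrec fun c => sub (fs c) (w c) := by
  unfold sub
  apply Primrec.list_flatMap hw
  have h1 : Primrec fun p : γ × (ℕ × Bool) => (fs p.1).getD p.2.1 [] :=
    PR_getD _ (hfs.comp Primrec.fst) (Primrec.fst.comp Primrec.snd)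
  exact Primrec.ite (Primrec.eq.comp (Primrec.snd.comp Primrec.snd) (Primrec.const true))
    h1 (PR_invRev h1)

theorem PR_single {i : γ → ℕ} (b : Bool) (hi : Primrec i) :
    Primrec fun c => [(i c, b)] :=
  Primrec.list_cons.comp (Primrec.pair hi (Primrec.const b)) (Primrec.const [])

theorem PR_Cert {n : γ → ℕ} {ws fs gs bs : γ → List (List (ℕ × Bool))} (hn : Primrec n)
    (hws : Primrec ws) (hfs : Primrec fs) (hgs : Primrec gs) (hbs : Primrec bs) :
    PrimrecPred fun c => Cert (n c) (ws c) (fs c) (gs c) (bs c) := by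
  unfold Cert
  have hb : Primrec fun p : γ × ℕ => (bs p.1).getD p.2 [] :=
    PR_getD _ (hbs.comp Primrec.fst) Primrec.snd
  have key : ∀ {fs gs : γ → List (List (ℕ × Bool))}, Primrec fs → Primrec gs →
      PrimrecPred fun p : γ × ℕ =>
        MemP (n p.1) (sub (fs p.1) (sub (gs p.1) [(p.2, true)]) ++ [(p.2, false)]) [] := by
    intro fs gs hfs hgs
    apply PR_MemP (hn.comp Primrec.fst)
    · apply Primrec.list_append.comp
      · exact PR_sub (hfs.comp Primrec.fst)
          (PR_sub (hgs.comp Primrec.fst) (PR_single true Primrec.snd))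
      · exact PR_single false Primrec.snd
    · exact Primrec.const []
  refine PrimrecPred.and ?_ (PrimrecPred.and ?_ (PrimrecPred.and ?_ ?_))
  · apply PR_ballt hn
    exact (key hfs hgs).and (key hgs hfs)
  · apply PR_ballt hn
    apply PrimrecPred.and
    · apply PR_ball hb
      exact Primrec.nat_le.comp (Primrec.fst.comp Primrec.snd) (Primrec.snd.comp Primrec.fst)
    · apply PrimrecPred.or
      · exact Primrec.eq.comp hb (Primrec.const [])
      · apply PrimrecPred.not
        apply PR_MemP (hn.comp Primrec.fst) hb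
        exact Primrec.list_map (Primrec.list_range.comp Primrec.snd) (PR_single true Primrec.snd)
  · apply PR_ballt hn
    apply PR_MemP (hn.comp Primrec.fst) hb
    apply Primrec.list_map (hws.comp Primrec.fst)
    exact PR_sub (hfs.comp (Primrec.fst.comp Primrec.fst)) Primrec.snd
  · apply PR_ball hws
    apply PR_MemP (hn.comp Primrec.fst)
    · exact PR_sub (hfs.comp Primrec.fst) Primrec.snd
    · apply Primrec.list_map (Primrec.list_range.comp (hn.comp Primrec.fst))
      exact PR_getD _ (hbs.comp (Primrec.fst.comp Primrec.fst)) Primrec.snd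

end PR2

theorem cert_prim : PrimrecPred (fun p : (ℕ × List (List (ℕ × Bool))) × List (List (ℕ × Bool)) ×
    List (List (ℕ × Bool)) × List (List (ℕ × Bool)) =>
    Cert p.1.1 p.1.2 p.2.1 p.2.2.1 p.2.2.2) :=
  PR_Cert (Primrec.fst.comp Primrec.fst) (Primrec.snd.comp Primrec.fst)
    (Primrec.fst.comp Primrec.snd) (Primrec.fst.comp (Primrec.snd.comp Primrec.snd))
    (Primrec.snd.comp (Primrec.snd.comp Primrec.snd))

theorem PR_words {γ : Type} [Primcodable γ] {n B : γ → ℕ} (hn : Primrec n) (hB : Primrec B) :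
    Primrec fun c => words (n c) (B c) := by
  unfold words
  apply PR_lists _ hB
  apply Primrec.list_flatMap (Primrec.list_range.comp hn)
  exact Primrec.list_cons.comp (Primrec.pair Primrec.snd (Primrec.const true))
    (PR_single false Primrec.snd)

/-- bounded search is primitive recursive -/
theorem search_prim (bnd : ℕ × List (List (ℕ × Bool)) → ℕ) (hb : Primrec bnd) :
    PrimrecPred (fun p : ℕ × List (List (ℕ × Bool)) =>
      ∃ fs ∈ lists (words p.1 (bnd p)) p.1, ∃ gs ∈ lists (words p.1 (bnd p)) p.1,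
        ∃ bs ∈ lists (words p.1 (bnd p)) p.1, Cert p.1 p.2 fs gs bs) := by
  have h1 : Primrec fun p : ℕ × List (List (ℕ × Bool)) => lists (words p.1 (bnd p)) p.1 :=
    PR_lists (PR_words Primrec.fst hb) Primrec.fst
  apply PR_bex h1
  apply PR_bex (h1.comp Primrec.fst)
  apply PR_bex (h1.comp (Primrec.fst.comp Primrec.fst))
  exact PR_Cert (Primrec.fst.comp (Primrec.fst.comp (Primrec.fst.comp Primrec.fst)))
    (Primrec.snd.comp (Primrec.fst.comp (Primrec.fst.comp Primrec.fst)))
    (Primrec.snd.comp (Primrec.fst.comp Primrec.fst))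
    (Primrec.snd.comp Primrec.fst) Primrec.snd

end Pool.Agent.helper22.EC
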