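import Pool.Agent.helper22.EC.Defs
import Pool.Agent.helper22.EC.Red

/-!
# MP_00de39_al (project EC): module ec:WH, Whitehead automorphisms and core edges
-/

set_option autoImplicit false
set_option linter.unusedSectionVars false
set_option linter.unusedTactic false

namespace Pool.Agent.helper22.EC

open FreeGroup

section WH

variable {α : Type} [DecidableEq α]

/-! ## Letters -/

theorem WH_nb_nb (y : α × Bool) : nb (nb y) = y := by simp [nb]

theorem WH_nb_ne (y : α × Bool) : nb y ≠ y := by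
  intro h
  have := congrArg Prod.snd h
  simp [nb] at this

theorem WH_ne_nb {y z : α × Bool} : y ≠ nb z ↔ nb y ≠ z := by
  constructor
  · intro h h'
    apply h
    rw [← h', WH_nb_nb]
  · intro h h'
    apply h
    rw [h', WH_nb_nb]

theorem WH_lt_nb (y : α × Bool) : lt (nb y) = (lt y)⁻¹ := by
  simp [lt, nb, FreeGroup.inv_mk, FreeGroup.invRev]

theorem WH_mk_cons (y : α × Bool) (L : List (α × Bool)) :
    (mk (y :: L) : FreeGroup α) = lt y * mk L := by
  simp [lt, FreeGroup.mul_mk]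

theorem WH_mul_mem (y : α × Bool) (g : FreeGroup α) (h : g ∉ U (nb y)) : lt y * g ∈ U y := by
  have h1 : (lt y * g).toWord = reduce (y :: g.toWord) := by
    rw [toWord_mul, lt, toWord_mk, reduce_singleton, List.singleton_append]
  have h2 : g.toWord.head? ≠ some (nb y) := h
  show (lt y * g).toWord.head? = some y
  rw [h1, reduce.cons, reduce_toWord]
  cases hg : g.toWord with
  | nil => simp
  | cons z L =>
    rw [hg] at h2
    simp only [List.head?_cons, ne_eq, Option.some.injEq] at h2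
    have h3 : ¬ (y.1 = z.1 ∧ y.2 = !z.2) := by
      rintro ⟨h3, h4⟩
      apply h2
      rw [nb, Prod.ext_iff]
      exact ⟨h3.symm, by simp [h4]⟩
    simp [h3]

theorem WH_toWord_mk {L : List (α × Bool)} (h : IsReduced L) : (mk L : FreeGroup α).toWord = L := by
  rw [toWord_mk, h.reduce_eq]

theorem WH_not_mem (y : α × Bool) (g : FreeGroup α) (h : g ∈ U y) :
    (lt y)⁻¹ * g ∉ U (nb y) := by
  have h2 : g.toWord.head? = some y := h
  have hr : IsReduced g.toWord := isReduced_toWord
  cases hg : g.toWord with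
  | nil => simp [hg] at h2
  | cons z L =>
    rw [hg] at h2 hr
    simp only [List.head?_cons, Option.some.injEq] at h2
    subst h2
    have h3 : g = lt z * mk L := by rw [← WH_mk_cons, ← hg, mk_toWord]
    rw [h3, inv_mul_cancel_left]
    intro h4
    have h5 : (mk L : FreeGroup α).toWord.head? = some (nb z) := h4
    have hr' : IsReduced L := red_part hr (List.infix_cons List.infix_rfl)
    rw [WH_toWord_mk hr'] at h5
    cases L with
    | nil => simp at h5
    | cons w L =>
      simp only [List.head?_cons, Option.some.injEq] at h5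
      subst h5
      have := (isReduced_cons_cons.mp hr).1
      simp [nb] at this

theorem WH_mem_U_iff (y : α × Bool) (g : FreeGroup α) :
    g ∈ U y ↔ (lt y)⁻¹ * g ∉ U (nb y) := by
  refine ⟨WH_not_mem y g, fun h => ?_⟩
  have := WH_mul_mem y ((lt y)⁻¹ * g) h
  rwa [mul_inv_cancel_left] at this

theorem WH_unique {y z : α × Bool} {g : FreeGroup α} (h : g ∈ U y) (h' : g ∈ U z) : y = z := by
  have h1 : g.toWord.head? = some y := h
  have h2 : g.toWord.head? = some z := h'
  rw [h1] at h2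
  exact Option.some.inj h2

theorem WH_exists {g : FreeGroup α} (h : g ≠ 1) : ∃ y, g ∈ U y := by
  cases hg : g.toWord with
  | nil => exact absurd (toWord_eq_nil_iff.mp hg) h
  | cons z L => exact ⟨z, by show g.toWord.head? = some z; rw [hg]; rfl⟩

theorem WH_one (y : α × Bool) : (1 : FreeGroup α) ∉ U y := by
  intro h
  have h1 : (1 : FreeGroup α).toWord.head? = some y := h
  simp at h1

/-- elements whose reduced word begins with a letter of `S` -/
def UA (S : Set (α × Bool)) : Set (FreeGroup α) := {g | ∃ y ∈ S, g ∈ U y}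

theorem WH_mem_UA {S : Set (α × Bool)} {y : α × Bool} {g : FreeGroup α} (h : g ∈ U y) :
    g ∈ UA S ↔ y ∈ S := by
  constructor
  · rintro ⟨z, hz, hg⟩
    rwa [WH_unique h hg]
  · intro hy
    exact ⟨y, hy, h⟩

theorem WH_not_mem_UA {S : Set (α × Bool)} {g : FreeGroup α} :
    g ∉ UA S ↔ g = 1 ∨ g ∈ UA Sᶜ := by
  constructor
  · intro h
    by_cases hg : g = 1
    · exact Or.inl hg
    · obtain ⟨y, hy⟩ := WH_exists hg
      right
      rw [WH_mem_UA hy]
      rw [WH_mem_UA hy] at h
      exact h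
  · rintro (rfl | ⟨y, hy, hg⟩) ⟨z, hz, hg'⟩
    · exact WH_one z hg'
    · rw [WH_unique hg hg'] at hy
      exact hy hz

/-! ## Right multiplication changes finitely many first letters -/

theorem WH_right_one (z : α × Bool) : ∀ (M : List (α × Bool)), IsReduced M → ∀ y, 
    M.head? = some y → 2 ≤ M.length → (mk M : FreeGroup α) * lt z ∈ U y := by
  intro M
  induction M with
  | nil => intro _ y h; simp at h
  | cons w M ih =>
    intro hM y hy hl
    simp only [List.head?_cons, Option.some.injEq] at hy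
    subst hy
    rw [WH_mk_cons, mul_assoc]
    apply WH_mul_mem
    cases M with
    | nil => simp at hl
    | cons u M =>
      have hM' : IsReduced (u :: M) := (isReduced_cons_cons.mp hM).2
      have hne : u ≠ nb w := by
        rintro rfl
        have := (isReduced_cons_cons.mp hM).1
        simp [nb] at this
      cases M with
      | nil =>
        rw [WH_mk_cons, ← FreeGroup.one_eq_mk, mul_one]
        by_cases hz : lt z ∈ U (nb u)
        · have h1 : (lt z).toWord = [z] := by rw [lt, toWord_mk]; rfl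
          have h2 : (lt z).toWord.head? = some (nb u) := hz
          rw [h1] at h2
          simp only [List.head?_cons, Option.some.injEq] at h2
          rw [h2, WH_lt_nb, mul_inv_cancel]
          exact WH_one _
        · have := WH_mul_mem u (lt z) hz
          intro h
          exact hne (WH_unique this h)
      | cons v M =>
        have := ih hM' u rfl (by simp)
        intro h
        exact hne (WH_unique this h)

theorem WH_right_one' (z y : α × Bool) (x : FreeGroup α) (hx : 2 ≤ FreeGroup.norm x)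
    (h : x ∈ U y) : x * lt z ∈ U y := by
  have := WH_right_one z x.toWord isReduced_toWord y h hx
  rwa [mk_toWord] at this

theorem WH_norm_lt (z : α × Bool) : FreeGroup.norm (lt z) = 1 := by
  rw [lt, FreeGroup.norm, toWord_mk]; rfl

theorem WH_right (y : α × Bool) : ∀ (L : List (α × Bool)) (x : FreeGroup α),
    L.length < FreeGroup.norm x → x ∈ U y → x * mk L ∈ U y := by
  intro L
  induction L with
  | nil => intro x _ h; rwa [← FreeGroup.one_eq_mk, mul_one]
  | cons z L ih =>
    intro x hx h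
    rw [WH_mk_cons, ← mul_assoc]
    simp only [List.length_cons] at hx
    apply ih
    · have h1 : FreeGroup.norm x ≤ FreeGroup.norm (x * lt z) + 1 := by
        have := FreeGroup.norm_mul_le (x * lt z) (lt z)⁻¹
        rw [mul_inv_cancel_right, FreeGroup.norm_inv_eq, WH_norm_lt] at this
        exact this
      omega
    · exact WH_right_one' z y x (by omega) h

theorem WH_right' (y : α × Bool) (g x : FreeGroup α)
    (hx : FreeGroup.norm g < FreeGroup.norm x) (h : x ∈ U y) : x * g ∈ U y := by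
  have := WH_right y g.toWord x hx h
  rwa [mk_toWord] at this

theorem WH_right_UA (S : Set (α × Bool)) (g x : FreeGroup α)
    (hx : FreeGroup.norm g < FreeGroup.norm x) : x * g ∈ UA S ↔ x ∈ UA S := by
  have hx1 : x ≠ 1 := by
    rintro rfl
    simp at hx
  obtain ⟨y, hy⟩ := WH_exists hx1
  rw [WH_mem_UA hy, WH_mem_UA (WH_right' y g x hx hy)]

theorem WH_ball [Fintype α] (n : ℕ) : {x : FreeGroup α | FreeGroup.norm x ≤ n}.Finite := by
  have h := List.finite_length_le (α × Bool) n
  exact h.preimage (f := FreeGroup.toWord) (toWord_injective.injOn)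

theorem WH_infinite_congr {X : Type} {s t u : Set X} (hu : u.Finite)
    (h : ∀ x, x ∉ u → (x ∈ s ↔ x ∈ t)) : s.Infinite ↔ t.Infinite := by
  have key : ∀ s t : Set X, (∀ x, x ∉ u → (x ∈ s ↔ x ∈ t)) → s.Infinite → t.Infinite := by
    intro s t h hs ht
    apply hs
    apply (ht.union hu).subset
    intro x hx
    by_cases hxu : x ∈ u
    · exact Or.inr hxu
    · exact Or.inl ((h x hxu).mp hx)
  exact ⟨key s t h, key t s fun x hx => (h x hx).symm⟩

theorem WH_mem_cj (K : Subgroup (FreeGroup α)) (g x : FreeGroup α) :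
    x ∈ cj K g ↔ g * x * g⁻¹ ∈ K := by
  simp [cj]

theorem WH_cj_one (K : Subgroup (FreeGroup α)) : cj K 1 = K := by
  ext x
  simp [WH_mem_cj]

theorem WH_cj_cj (K : Subgroup (FreeGroup α)) (g : FreeGroup α) :
    cj (cj K g) g⁻¹ = K := by
  ext x
  rw [WH_mem_cj, WH_mem_cj]
  group

theorem WH_cj_cj' (K : Subgroup (FreeGroup α)) (g : FreeGroup α) :
    cj (cj K g⁻¹) g = K := by
  ext x
  rw [WH_mem_cj, WH_mem_cj]
  group

variable [Fintype α]

theorem WH_UA_inf (L : Subgroup (FreeGroup α)) (S : Set (α × Bool)) :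
    {x | x ∈ L ∧ x ∈ UA S}.Infinite ↔ ∃ y ∈ S, y ∈ D L := by
  constructor
  · intro h
    by_contra hc
    push Not at hc
    apply h
    have hS : S.Finite := Set.toFinite S
    apply (hS.biUnion (t := fun y => (L : Set (FreeGroup α)) ∩ U y) ?_).subset
    · rintro x ⟨hx, y, hy, hxy⟩
      exact Set.mem_biUnion hy ⟨hx, hxy⟩
    · intro y hy
      exact Set.not_infinite.mp (hc y hy)
  · rintro ⟨y, hy, hd⟩
    have hd' : ((L : Set (FreeGroup α)) ∩ U y).Infinite := hd
    exact hd'.mono fun x hx => ⟨hx.1, y, hy, hx.2⟩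

theorem WH_key (K : Subgroup (FreeGroup α)) (g : FreeGroup α) (S : Set (α × Bool)) :
    {x | x ∈ K ∧ g * x ∈ UA S}.Infinite ↔ ∃ y ∈ S, y ∈ D (cj K g⁻¹) := by
  rw [← WH_UA_inf]
  have h1 : {x | x ∈ K ∧ g * x ∈ UA S}.Infinite ↔
      {x | x ∈ cj K g⁻¹ ∧ x * g ∈ UA S}.Infinite := by
    have hinj : Function.Injective (fun x : FreeGroup α => g * x * g⁻¹) := by
      intro x y h
      simpa using h
    rw [← Set.infinite_image_iff (f := fun x : FreeGroup α => g * x * g⁻¹) hinj.injOn]
    have : (fun x : FreeGroup α => g * x * g⁻¹) '' {x | x ∈ K ∧ g * x ∈ UA S} =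
        {x | x ∈ cj K g⁻¹ ∧ x * g ∈ UA S} := by
      ext x
      simp only [Set.mem_image, Set.mem_ofPred_eq, WH_mem_cj, inv_inv]
      constructor
      · rintro ⟨y, ⟨hy, hy'⟩, rfl⟩
        refine ⟨by simpa [mul_assoc] using hy, by simpa [mul_assoc] using hy'⟩
      · rintro ⟨hx, hx'⟩
        exact ⟨g⁻¹ * x * g, ⟨hx, by simpa [mul_assoc] using hx'⟩, by group⟩
    rw [this]
  rw [h1]
  apply WH_infinite_congr (WH_ball (FreeGroup.norm g))
  intro x hx
  simp only [Set.mem_ofPred_eq, not_le] at hx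
  simp only [Set.mem_ofPred_eq, WH_right_UA S g x hx]

theorem WH_key' (K : Subgroup (FreeGroup α)) (g : FreeGroup α) (S : Set (α × Bool)) :
    {x | x ∈ K ∧ g * x ∉ UA S}.Infinite ↔ ∃ y ∉ S, y ∈ D (cj K g⁻¹) := by
  rw [← WH_infinite_congr (s := {x | x ∈ K ∧ g * x ∈ UA Sᶜ}) (Set.finite_singleton g⁻¹),
    WH_key]
  · rfl
  · intro x hx
    simp only [Set.mem_ofPred_eq, WH_not_mem_UA (S := S)]
    have : g * x ≠ 1 := by
      intro h
      exact hx (eq_inv_of_mul_eq_one_right h)
    simp [this]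

theorem WH_U_eq (y : α × Bool) (x : FreeGroup α) : x ∈ U y ↔ x ∈ UA {y} := by
  simp [UA]

theorem WH_D_one (K : Subgroup (FreeGroup α)) (S : Set (α × Bool)) :
    {x | x ∈ K ∧ x ∈ UA S}.Infinite ↔ ∃ y ∈ S, y ∈ D K := WH_UA_inf K S

theorem WH_step (K : Subgroup (FreeGroup α)) (y : α × Bool) :
    y ∈ D K ↔ ∃ z, z ≠ nb y ∧ z ∈ D (cj K (lt y)) := by
  have h := WH_key' K (lt y)⁻¹ {nb y}
  rw [inv_inv] at h
  have h1 : {x | x ∈ K ∧ (lt y)⁻¹ * x ∉ UA {nb y}} = (K : Set (FreeGroup α)) ∩ U y := by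
    ext x
    simp only [Set.mem_ofPred_eq, Set.mem_inter_iff, SetLike.mem_coe, WH_mem_U_iff y x,
      WH_U_eq (nb y)]
  rw [h1] at h
  exact h

/-- `nb a` is a direction of `K` iff `a K a⁻¹` has a direction different from `a`. -/
theorem WH_step_nb (K : Subgroup (FreeGroup α)) (a : α × Bool) :
    nb a ∈ D K ↔ ∃ z, z ≠ a ∧ z ∈ D (cj K (lt a)⁻¹) := by
  rw [WH_step, WH_nb_nb, WH_lt_nb]

theorem WH_step_a (K : Subgroup (FreeGroup α)) (a : α × Bool) :
    a ∈ D (cj K (lt a)⁻¹) ↔ ∃ z, z ≠ nb a ∧ z ∈ D K := by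
  rw [WH_step, WH_cj_cj']

/-! ## The automorphism -/

omit [Fintype α] in
open Classical in
/-- image of the letter `z` -/
noncomputable def tl (A : Set (α × Bool)) (a : α × Bool) (c : FreeGroup α) (z : α × Bool) :
    FreeGroup α :=
  if z = a then lt a else if z = nb a then (lt a)⁻¹ else
    (if z ∈ A then c⁻¹ else 1) * lt z * (if nb z ∈ A then c else 1)

omit [Fintype α] in
theorem WH_tl_nb (A : Set (α × Bool)) (a : α × Bool) (c : FreeGroup α) (z : α × Bool) :
    tl A a c (nb z) = (tl A a c z)⁻¹ := by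
  unfold tl
  by_cases h1 : z = a
  · subst h1
    rw [if_neg (WH_nb_ne z), if_pos rfl, if_pos rfl]
  · by_cases h2 : z = nb a
    · subst h2
      rw [WH_nb_nb, if_pos rfl, if_neg (WH_nb_ne a), if_pos rfl, inv_inv]
    · have h3 : nb z ≠ a := WH_ne_nb.mp h2
      have h4 : nb z ≠ nb a := by
        intro h
        apply h1
        rw [← WH_nb_nb z, h, WH_nb_nb]
      rw [if_neg h1, if_neg h2, if_neg h3, if_neg h4, WH_lt_nb, WH_nb_nb]
      split_ifs <;> simp [mul_assoc]

omit [Fintype α] in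
/-- the endomorphism -/
noncomputable def th (A : Set (α × Bool)) (a : α × Bool) (c : FreeGroup α) :
    FreeGroup α →* FreeGroup α := FreeGroup.lift fun x => tl A a c (x, true)

omit [Fintype α] in
theorem WH_th_lt (A : Set (α × Bool)) (a : α × Bool) (c : FreeGroup α) (z : α × Bool) :
    th A a c (lt z) = tl A a c z := by
  obtain ⟨x, b⟩ := z
  cases b
  · have h1 : (lt (x, false) : FreeGroup α) = (of x)⁻¹ := by
      have := WH_lt_nb (x, true)
      exact this
    rw [h1, _root_.map_inv, th, lift_apply_of, ← WH_tl_nb]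
    rfl
  · have h1 : (lt (x, true) : FreeGroup α) = of x := rfl
    rw [h1, th, lift_apply_of]

omit [Fintype α] in
theorem WH_th_a (A : Set (α × Bool)) (a : α × Bool) (c : FreeGroup α) :
    th A a c (lt a) = lt a := by
  rw [WH_th_lt, tl, if_pos rfl]

omit [Fintype α] in
theorem WH_th_tl (A : Set (α × Bool)) (a : α × Bool) (c : FreeGroup α) (hc : th A a c c = c)
    (z : α × Bool) : th A a c (tl A a c⁻¹ z) = lt z := by
  unfold tl
  by_cases h1 : z = a
  · subst h1
    rw [if_pos rfl, WH_th_a]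
  · by_cases h2 : z = nb a
    · subst h2
      rw [if_neg (WH_nb_ne a), if_pos rfl, _root_.map_inv, WH_th_a, WH_lt_nb]
    · rw [if_neg h1, if_neg h2, _root_.map_mul, _root_.map_mul, WH_th_lt]
      unfold tl
      rw [if_neg h1, if_neg h2]
      split_ifs <;> simp [hc, mul_assoc]

omit [Fintype α] in
theorem WH_th_th (A : Set (α × Bool)) (a : α × Bool) (c : FreeGroup α) (hc : th A a c c = c) :
    (th A a c).comp (th A a c⁻¹) = MonoidHom.id _ := by
  ext x
  simp only [MonoidHom.comp_apply, MonoidHom.id_apply]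
  have h1 : (of x : FreeGroup α) = lt (x, true) := rfl
  rw [h1, WH_th_lt, WH_th_tl A a c hc]

omit [Fintype α] in
/-- the Whitehead automorphism -/
noncomputable def wa (A : Set (α × Bool)) (a : α × Bool) : FreeGroup α ≃* FreeGroup α :=
  MonoidHom.toMulEquiv (th A a (lt a)) (th A a (lt a)⁻¹)
    (by
      have := WH_th_th A a (lt a)⁻¹ (by rw [_root_.map_inv, WH_th_a])
      rwa [inv_inv] at this)
    (WH_th_th A a (lt a) (WH_th_a A a _))

omit [Fintype α] in
theorem WH_norm_tl (A : Set (α × Bool)) (a : α × Bool) (c : FreeGroup α)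
    (hc : FreeGroup.norm c = 1) (z : α × Bool) : FreeGroup.norm (tl A a c z) ≤ 3 := by
  have h1 : ∀ y : α × Bool, FreeGroup.norm (lt y) = 1 := WH_norm_lt
  unfold tl
  split_ifs
  all_goals
    first
    | (rw [h1]; norm_num; done)
    | (rw [FreeGroup.norm_inv_eq, h1]; norm_num; done)
    | skip
  · refine (FreeGroup.norm_mul_le _ _).trans ?_
    have := FreeGroup.norm_mul_le c⁻¹ (lt z)
    rw [FreeGroup.norm_inv_eq, h1, hc] at this
    omega
  · rw [mul_one]
    have := FreeGroup.norm_mul_le c⁻¹ (lt z)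
    rw [FreeGroup.norm_inv_eq, h1, hc] at this
    omega
  · rw [one_mul]
    have := FreeGroup.norm_mul_le (lt z) c
    rw [h1, hc] at this
    omega
  · rw [one_mul, mul_one, h1]
    norm_num

/-! ## Images of the sets `U y` -/

omit [Fintype α] in
open Classical in
/-- the image of `U z` under the automorphism -/
def VV (A : Set (α × Bool)) (a : α × Bool) (z : α × Bool) : Set (FreeGroup α) :=
  if z = a then UA A else if z = nb a then {g | lt a * g ∉ UA A} else
    if z ∈ A then {g | lt a * g ∈ U z} else U z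

omit [Fintype α] in
theorem WH_V1 (A : Set (α × Bool)) (a : α × Bool) : VV A a a = UA A := by
  rw [VV, if_pos rfl]

omit [Fintype α] in
theorem WH_V2 (A : Set (α × Bool)) (a : α × Bool) :
    VV A a (nb a) = {g | lt a * g ∉ UA A} := by
  rw [VV, if_neg (WH_nb_ne a), if_pos rfl]

omit [Fintype α] in
theorem WH_V3 (A : Set (α × Bool)) (a z : α × Bool) (h1 : z ≠ a) (h2 : z ≠ nb a) (h3 : z ∈ A) :
    VV A a z = {g | lt a * g ∈ U z} := by
  rw [VV, if_neg h1, if_neg h2, if_pos h3]

omit [Fintype α] in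
theorem WH_V4 (A : Set (α × Bool)) (a z : α × Bool) (h1 : z ≠ a) (h2 : z ≠ nb a) (h3 : z ∉ A) :
    VV A a z = U z := by
  rw [VV, if_neg h1, if_neg h2, if_neg h3]

omit [Fintype α] in
theorem WH_UA_sub (A : Set (α × Bool)) (a : α × Bool) (ha : a ∈ A) (hna : nb a ∉ A)
    (g : FreeGroup α) (h : g ∈ UA A) : lt a * g ∈ UA A := by
  refine ⟨a, ha, WH_mul_mem a g ?_⟩
  intro h'
  rw [WH_mem_UA h'] at h
  exact hna h

omit [Fintype α] in
/-- if `a g` begins with `z ≠ a` then `g` begins with `nb a` -/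
theorem WH_aux1 (a z : α × Bool) (g : FreeGroup α) (h1 : z ≠ a) (h : lt a * g ∈ U z) :
    g ∈ U (nb a) := by
  by_contra hc
  exact h1 (WH_unique h (WH_mul_mem a g hc))

omit [Fintype α] in
theorem WH_V_one (A : Set (α × Bool)) (a : α × Bool) (ha : a ∈ A) (z : α × Bool) :
    (1 : FreeGroup α) ∉ VV A a z := by
  by_cases h1 : z = a
  · subst h1
    rw [WH_V1]
    rintro ⟨y, -, h⟩
    exact WH_one y h
  · by_cases h2 : z = nb a
    · subst h2
      rw [WH_V2]
      simp only [Set.mem_ofPred_eq, not_not]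
      exact ⟨a, ha, WH_mul_mem a 1 (WH_one _)⟩
    · by_cases h3 : z ∈ A
      · rw [WH_V3 A a z h1 h2 h3]
        intro h
        exact WH_one _ (WH_aux1 a z 1 h1 h)
      · rw [WH_V4 A a z h1 h2 h3]
        exact WH_one z

omit [Fintype α] in
theorem WH_V_disj (A : Set (α × Bool)) (a : α × Bool) (ha : a ∈ A) (hna : nb a ∉ A)
    (z w : α × Bool) (g : FreeGroup α) (hz : g ∈ VV A a z) (hw : g ∈ VV A a w) : z = w := by
  -- four types; membership data of each type
  have key : ∀ z w : α × Bool, g ∈ VV A a z → g ∈ VV A a w → z = a → z = w := by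
    intro z w hz hw h
    subst h
    rw [WH_V1] at hz
    by_cases h1 : w = z
    · exact h1.symm
    · exfalso
      by_cases h2 : w = nb z
      · subst h2
        rw [WH_V2] at hw
        exact hw (WH_UA_sub A z ha hna g hz)
      · by_cases h3 : w ∈ A
        · rw [WH_V3 A z w h1 h2 h3] at hw
          have := WH_aux1 z w g h1 hw
          rw [WH_mem_UA this] at hz
          exact hna hz
        · rw [WH_V4 A z w h1 h2 h3] at hw
          rw [WH_mem_UA hw] at hz
          exact h3 hz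
  have key2 : ∀ z w : α × Bool, g ∈ VV A a z → g ∈ VV A a w → w ≠ a → z = nb a → z = w := by
    intro z w hz hw h1 h
    subst h
    rw [WH_V2] at hz
    by_cases h2 : w = nb a
    · exact h2.symm
    · exfalso
      apply hz
      by_cases h3 : w ∈ A
      · rw [WH_V3 A a w h1 h2 h3] at hw
        exact ⟨w, h3, hw⟩
      · rw [WH_V4 A a w h1 h2 h3] at hw
        refine ⟨a, ha, WH_mul_mem a g ?_⟩
        intro h'
        exact h2 (WH_unique hw h')
  by_cases h1 : z = a
  · exact key z w hz hw h1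
  by_cases h1' : w = a
  · exact (key w z hw hz h1').symm
  by_cases h2 : z = nb a
  · exact key2 z w hz hw h1' h2
  by_cases h2' : w = nb a
  · exact (key2 w z hw hz h1 h2').symm
  by_cases h3 : z ∈ A
  · rw [WH_V3 A a z h1 h2 h3] at hz
    by_cases h3' : w ∈ A
    · rw [WH_V3 A a w h1' h2' h3'] at hw
      exact WH_unique hz hw
    · rw [WH_V4 A a w h1' h2' h3'] at hw
      exact absurd (WH_unique hw (WH_aux1 a z g h1 hz)) h2'
  · rw [WH_V4 A a z h1 h2 h3] at hz
    by_cases h3' : w ∈ A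
    · rw [WH_V3 A a w h1' h2' h3'] at hw
      exact absurd (WH_unique hz (WH_aux1 a w g h1' hw)) h2
    · rw [WH_V4 A a w h1' h2' h3'] at hw
      exact WH_unique hz hw

omit [Fintype α] in
theorem WH_V_gen (A : Set (α × Bool)) (a : α × Bool) (z : α × Bool)
    (g : FreeGroup α) (h : g ∉ VV A a (nb z)) : tl A a (lt a) z * g ∈ VV A a z := by
  by_cases h1 : z = a
  · subst h1
    rw [WH_V2] at h
    rw [WH_V1, tl, if_pos rfl]
    simpa using h
  · by_cases h2 : z = nb a
    · subst h2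
      rw [WH_nb_nb, WH_V1] at h
      rw [WH_V2, tl, if_neg h1, if_pos rfl]
      simpa using h
    · have h3 : nb z ≠ a := WH_ne_nb.mp h2
      have h4 : nb z ≠ nb a := by
        intro h
        apply h1
        rw [← WH_nb_nb z, h, WH_nb_nb]
      classical
      have hkey : (if nb z ∈ A then lt a else 1) * g ∉ U (nb z) := by
        by_cases h5 : nb z ∈ A
        · rw [WH_V3 A a _ h3 h4 h5] at h
          simpa [h5] using h
        · rw [WH_V4 A a _ h3 h4 h5] at h
          simpa [h5] using h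
      have hkey2 := WH_mul_mem z _ hkey
      rw [tl, if_neg h1, if_neg h2]
      by_cases h6 : z ∈ A
      · rw [WH_V3 A a z h1 h2 h6]
        simp only [if_pos h6, Set.mem_ofPred_eq]
        rw [mul_assoc, mul_assoc, mul_inv_cancel_left]
        exact hkey2
      · rw [WH_V4 A a z h1 h2 h6]
        rw [if_neg h6, one_mul, mul_assoc]
        exact hkey2

omit [Fintype α] in
theorem WH_V_fwd (A : Set (α × Bool)) (a : α × Bool) (ha : a ∈ A) (hna : nb a ∉ A) :
    ∀ L : List (α × Bool), IsReduced L → ∀ z, L.head? = some z →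
      th A a (lt a) (mk L) ∈ VV A a z := by
  intro L
  induction L with
  | nil => intro _ z h; simp at h
  | cons w L ih =>
    intro hL z hz
    simp only [List.head?_cons, Option.some.injEq] at hz
    subst hz
    rw [WH_mk_cons, _root_.map_mul, WH_th_lt]
    apply WH_V_gen
    cases L with
    | nil =>
      rw [← FreeGroup.one_eq_mk, _root_.map_one]
      exact WH_V_one A a ha _
    | cons u L =>
      have h := ih (isReduced_cons_cons.mp hL).2 u rfl
      intro h'
      have := WH_V_disj A a ha hna _ _ _ h h'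
      subst this
      have := (isReduced_cons_cons.mp hL).1
      simp [nb] at this

omit [Fintype α] in
theorem WH_wa_apply (A : Set (α × Bool)) (a : α × Bool) (g : FreeGroup α) :
    wa A a g = th A a (lt a) g := rfl

omit [Fintype α] in
theorem WH_V_iff (A : Set (α × Bool)) (a : α × Bool) (ha : a ∈ A) (hna : nb a ∉ A)
    (g : FreeGroup α) (z : α × Bool) : wa A a g ∈ VV A a z ↔ g ∈ U z := by
  have key : ∀ z, g ∈ U z → wa A a g ∈ VV A a z := by
    intro z hz
    have := WH_V_fwd A a ha hna g.toWord isReduced_toWord z hz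
    rwa [mk_toWord] at this
  constructor
  · intro h
    have hg : g ≠ 1 := by
      rintro rfl
      rw [_root_.map_one] at h
      exact WH_V_one A a ha z h
    obtain ⟨w, hw⟩ := WH_exists hg
    rwa [WH_V_disj A a ha hna _ _ _ h (key w hw)]
  · exact key z

/-! ## Directions of the preimage -/

theorem WH_D_comap (A : Set (α × Bool)) (a : α × Bool) (ha : a ∈ A) (hna : nb a ∉ A)
    (K : Subgroup (FreeGroup α)) (z : α × Bool) :
    z ∈ D (K.comap (wa A a).toMonoidHom) ↔ {x | x ∈ K ∧ x ∈ VV A a z}.Infinite := by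
  have h1 : z ∈ D (K.comap (wa A a).toMonoidHom) ↔
      ((K.comap (wa A a).toMonoidHom : Set (FreeGroup α)) ∩ U z).Infinite := Iff.rfl
  rw [h1, ← Set.infinite_image_iff (f := wa A a) (wa A a).injective.injOn]
  have h2 : wa A a '' ((K.comap (wa A a).toMonoidHom : Set (FreeGroup α)) ∩ U z) =
      {x | x ∈ K ∧ x ∈ VV A a z} := by
    ext x
    simp only [Set.mem_image, Set.mem_inter_iff, Set.mem_ofPred_eq]
    constructor
    · rintro ⟨y, ⟨hy, hy'⟩, rfl⟩
      exact ⟨hy, (WH_V_iff A a ha hna y z).mpr hy'⟩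
    · rintro ⟨hx, hx'⟩
      refine ⟨(wa A a).symm x, ⟨?_, ?_⟩, by simp⟩
      · show wa A a ((wa A a).symm x) ∈ K
        simpa using hx
      · rw [← WH_V_iff A a ha hna]
        simpa using hx'
  rw [h2]

theorem WH_D1 (A : Set (α × Bool)) (a : α × Bool) (ha : a ∈ A) (hna : nb a ∉ A)
    (K : Subgroup (FreeGroup α)) :
    a ∈ D (K.comap (wa A a).toMonoidHom) ↔ ∃ y ∈ A, y ∈ D K := by
  rw [WH_D_comap A a ha hna, WH_V1, WH_UA_inf]

theorem WH_D2 (A : Set (α × Bool)) (a : α × Bool) (ha : a ∈ A) (hna : nb a ∉ A)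
    (K : Subgroup (FreeGroup α)) :
    nb a ∈ D (K.comap (wa A a).toMonoidHom) ↔ ∃ y ∉ A, y ∈ D (cj K (lt a)⁻¹) := by
  rw [WH_D_comap A a ha hna, WH_V2]
  exact WH_key' K (lt a) A

theorem WH_D3 (A : Set (α × Bool)) (a : α × Bool) (ha : a ∈ A) (hna : nb a ∉ A)
    (K : Subgroup (FreeGroup α)) (z : α × Bool) (h1 : z ≠ a) (h3 : z ∈ A) :
    z ∈ D (K.comap (wa A a).toMonoidHom) ↔ z ∈ D (cj K (lt a)⁻¹) := by
  have h2 : z ≠ nb a := by
    rintro rfl
    exact hna h3
  rw [WH_D_comap A a ha hna, WH_V3 A a z h1 h2 h3]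
  have := WH_key K (lt a) {z}
  simp only [← WH_U_eq, Set.mem_singleton_iff, exists_eq_left] at this
  exact this

theorem WH_D4 (A : Set (α × Bool)) (a : α × Bool) (ha : a ∈ A) (hna : nb a ∉ A)
    (K : Subgroup (FreeGroup α)) (z : α × Bool) (h2 : z ≠ nb a) (h3 : z ∉ A) :
    z ∈ D (K.comap (wa A a).toMonoidHom) ↔ z ∈ D K := by
  have h1 : z ≠ a := by
    rintro rfl
    exact h3 ha
  rw [WH_D_comap A a ha hna, WH_V4 A a z h1 h2 h3]
  rfl

theorem WH_nontriv {X : Type} {s : Set X} {y : X} (hy : y ∈ s) :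
    s.Nontrivial ↔ ∃ z, z ≠ y ∧ z ∈ s := by
  constructor
  · intro h
    obtain ⟨z, hz, hne⟩ := h.exists_ne y
    exact ⟨z, hne, hz⟩
  · rintro ⟨z, hne, hz⟩
    exact ⟨z, hz, y, hy, hne⟩

/-- (1) -/
theorem WH_E1 (A : Set (α × Bool)) (a : α × Bool) (ha : a ∈ A) (hna : nb a ∉ A)
    (K : Subgroup (FreeGroup α)) :
    (a ∈ D (K.comap (wa A a).toMonoidHom) ∧ (D (K.comap (wa A a).toMonoidHom)).Nontrivial) ↔
      ((D K ∩ A).Nonempty ∧ (D K ∩ Aᶜ).Nonempty) := by
  have hA : (D K ∩ A).Nonempty ↔ a ∈ D (K.comap (wa A a).toMonoidHom) := by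
    rw [WH_D1 A a ha hna]
    constructor
    · rintro ⟨y, h1, h2⟩
      exact ⟨y, h2, h1⟩
    · rintro ⟨y, h1, h2⟩
      exact ⟨y, h2, h1⟩
  rw [hA]
  apply and_congr_right
  intro h
  rw [WH_nontriv h]
  constructor
  · rintro ⟨z, hz, hzD⟩
    by_cases h2 : z = nb a
    · subst h2
      rw [WH_D2 A a ha hna] at hzD
      obtain ⟨y, hy, hyD⟩ := hzD
      refine ⟨nb a, ?_, hna⟩
      rw [WH_step_nb]
      exact ⟨y, fun h => hy (h ▸ ha), hyD⟩
    · by_cases h3 : z ∈ A
      · rw [WH_D3 A a ha hna K z hz h3] at hzD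
        refine ⟨nb a, ?_, hna⟩
        rw [WH_step_nb]
        exact ⟨z, hz, hzD⟩
      · rw [WH_D4 A a ha hna K z h2 h3] at hzD
        exact ⟨z, hzD, h3⟩
  · rintro ⟨z, hzD, h3⟩
    by_cases h2 : z = nb a
    · subst h2
      rw [WH_step_nb] at hzD
      obtain ⟨w, hw, hwD⟩ := hzD
      by_cases h4 : w ∈ A
      · exact ⟨w, hw, (WH_D3 A a ha hna K w hw h4).mpr hwD⟩
      · exact ⟨nb a, WH_nb_ne a, (WH_D2 A a ha hna K).mpr ⟨w, h4, hwD⟩⟩
    · refine ⟨z, ?_, (WH_D4 A a ha hna K z h2 h3).mpr hzD⟩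
      rintro rfl
      exact h3 ha

/-- (2) -/
theorem WH_E2 (A : Set (α × Bool)) (a : α × Bool) (ha : a ∈ A) (hna : nb a ∉ A)
    (K : Subgroup (FreeGroup α)) (y : α × Bool) (h2 : y ≠ nb a) (h3 : y ∉ A) :
    (y ∈ D (K.comap (wa A a).toMonoidHom) ∧ (D (K.comap (wa A a).toMonoidHom)).Nontrivial) ↔
      (y ∈ D K ∧ (D K).Nontrivial) := by
  rw [WH_D4 A a ha hna K y h2 h3]
  apply and_congr_right
  intro h
  have h' := (WH_D4 A a ha hna K y h2 h3).mpr h
  rw [WH_nontriv h, WH_nontriv h']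
  constructor
  · rintro ⟨z, hz, hzD⟩
    by_cases h4 : z = a
    · subst h4
      rw [WH_D1 A z ha hna] at hzD
      obtain ⟨w, hw, hwD⟩ := hzD
      refine ⟨w, ?_, hwD⟩
      rintro rfl
      exact h3 hw
    · by_cases h5 : z = nb a
      · subst h5
        rw [WH_D2 A a ha hna] at hzD
        obtain ⟨w, hw, hwD⟩ := hzD
        refine ⟨nb a, h2.symm, ?_⟩
        rw [WH_step_nb]
        exact ⟨w, fun h => hw (h ▸ ha), hwD⟩
      · by_cases h6 : z ∈ A
        · rw [WH_D3 A a ha hna K z h4 h6] at hzD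
          refine ⟨nb a, h2.symm, ?_⟩
          rw [WH_step_nb]
          exact ⟨z, h4, hzD⟩
        · rw [WH_D4 A a ha hna K z h5 h6] at hzD
          exact ⟨z, hz, hzD⟩
  · rintro ⟨z, hz, hzD⟩
    by_cases h6 : z ∈ A
    · refine ⟨a, ?_, (WH_D1 A a ha hna K).mpr ⟨z, h6, hzD⟩⟩
      rintro rfl
      exact h3 ha
    · by_cases h5 : z = nb a
      · subst h5
        rw [WH_step_nb] at hzD
        obtain ⟨w, hw, hwD⟩ := hzD
        by_cases h7 : w ∈ A
        · refine ⟨w, ?_, (WH_D3 A a ha hna K w hw h7).mpr hwD⟩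
          rintro rfl
          exact h3 h7
        · exact ⟨nb a, h2.symm, (WH_D2 A a ha hna K).mpr ⟨w, h7, hwD⟩⟩
      · exact ⟨z, hz, (WH_D4 A a ha hna K z h5 h6).mpr hzD⟩

/-- (3) -/
theorem WH_E3 (A : Set (α × Bool)) (a : α × Bool) (ha : a ∈ A) (hna : nb a ∉ A)
    (K : Subgroup (FreeGroup α)) (y : α × Bool) (h1 : y ≠ a) (h3 : y ∈ A) :
    (y ∈ D (K.comap (wa A a).toMonoidHom) ∧ (D (K.comap (wa A a).toMonoidHom)).Nontrivial) ↔
      (y ∈ D (cj K (lt a)⁻¹) ∧ (D (cj K (lt a)⁻¹)).Nontrivial) := by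
  have h2 : y ≠ nb a := by
    rintro rfl
    exact hna h3
  rw [WH_D3 A a ha hna K y h1 h3]
  apply and_congr_right
  intro h
  have h' := (WH_D3 A a ha hna K y h1 h3).mpr h
  rw [WH_nontriv h, WH_nontriv h']
  constructor
  · rintro ⟨z, hz, hzD⟩
    by_cases h4 : z = a
    · subst h4
      rw [WH_D1 A z ha hna] at hzD
      obtain ⟨w, hw, hwD⟩ := hzD
      refine ⟨z, hz, ?_⟩
      rw [WH_step_a]
      exact ⟨w, fun h => hna (h ▸ hw), hwD⟩
    · by_cases h5 : z = nb a
      · subst h5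
        rw [WH_D2 A a ha hna] at hzD
        obtain ⟨w, hw, hwD⟩ := hzD
        exact ⟨w, fun h => hw (h ▸ h3), hwD⟩
      · by_cases h6 : z ∈ A
        · rw [WH_D3 A a ha hna K z h4 h6] at hzD
          exact ⟨z, hz, hzD⟩
        · rw [WH_D4 A a ha hna K z h5 h6] at hzD
          refine ⟨a, h1.symm, ?_⟩
          rw [WH_step_a]
          exact ⟨z, h5, hzD⟩
  · rintro ⟨z, hz, hzD⟩
    by_cases h6 : z ∈ A
    · by_cases h4 : z = a
      · subst h4
        rw [WH_step_a] at hzD
        obtain ⟨w, hw, hwD⟩ := hzD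
        by_cases h7 : w ∈ A
        · exact ⟨z, hz, (WH_D1 A z ha hna K).mpr ⟨w, h7, hwD⟩⟩
        · refine ⟨w, ?_, (WH_D4 A z ha hna K w hw h7).mpr hwD⟩
          rintro rfl
          exact h7 h3
      · exact ⟨z, hz, (WH_D3 A a ha hna K z h4 h6).mpr hzD⟩
    · exact ⟨nb a, h2.symm, (WH_D2 A a ha hna K).mpr ⟨z, h6, hzD⟩⟩

/-! ## Vertices -/

theorem WH_E0 (K : Subgroup (FreeGroup α)) (y : α × Bool) :
    (y ∈ D K ∧ (D K).Nontrivial) ↔
      (nb y ∈ D (cj K (lt y)) ∧ (D (cj K (lt y))).Nontrivial) := by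
  have h1 := WH_step K y
  have h2 := WH_step_nb (cj K (lt y)) y
  rw [WH_cj_cj] at h2
  constructor
  · rintro ⟨h, h'⟩
    have h3 := h2.mpr ((WH_nontriv h).mp h')
    exact ⟨h3, (WH_nontriv h3).mpr (h1.mp h)⟩
  · rintro ⟨h, h'⟩
    have h3 := h1.mpr ((WH_nontriv h).mp h')
    exact ⟨h3, (WH_nontriv h3).mpr (h2.mp h)⟩

omit [Fintype α] [DecidableEq α] in
theorem WH_ncard {X Y : Type} (e : X ≃ Y) (s : Set X) (t : Set Y)
    (h : ∀ x, x ∈ s ↔ e x ∈ t) : s.ncard = t.ncard := by
  apply Set.ncard_congr (fun x _ => e x)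
  · intro x hx
    exact (h x).mp hx
  · intro x y _ _ hxy
    exact e.injective hxy
  · intro y hy
    refine ⟨e.symm y, ?_, by simp⟩
    rw [h]
    simpa using hy

omit [Fintype α] in
theorem WH_cj_stab {H : Subgroup (FreeGroup α)} (v : FreeGroup α ⧸ H) (g : FreeGroup α) :
    cj (MulAction.stabilizer (FreeGroup α) v) g =
      MulAction.stabilizer (FreeGroup α) (g⁻¹ • v) := by
  ext x
  rw [WH_mem_cj, MulAction.mem_stabilizer_iff, MulAction.mem_stabilizer_iff, mul_smul, mul_smul]
  constructor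
  · intro h
    rw [eq_inv_smul_iff]
    exact h
  · intro h
    rw [eq_inv_smul_iff] at h
    exact h

theorem WH_edg_nb (H : Subgroup (FreeGroup α)) (y : α × Bool) :
    (edg H (nb y)).ncard = (edg H y).ncard := by
  symm
  apply WH_ncard (MulAction.toPerm (lt y)⁻¹)
  intro v
  show (y ∈ D (MulAction.stabilizer (FreeGroup α) v) ∧
    (D (MulAction.stabilizer (FreeGroup α) v)).Nontrivial) ↔ _
  rw [WH_E0, WH_cj_stab]
  rfl

omit [Fintype α] [DecidableEq α] in
theorem WH_rel (θ : FreeGroup α ≃* FreeGroup α) (H : Subgroup (FreeGroup α))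
    (x y : FreeGroup α) : (QuotientGroup.leftRel (H.comap θ.toMonoidHom)) x y ↔
      (QuotientGroup.leftRel H) (θ.toEquiv x) (θ.toEquiv y) := by
  rw [QuotientGroup.leftRel_apply, QuotientGroup.leftRel_apply]
  have : θ.toEquiv x = θ x := rfl
  have h2 : θ.toEquiv y = θ y := rfl
  rw [this, h2, ← _root_.map_inv, ← _root_.map_mul]
  rfl

omit [Fintype α] [DecidableEq α] in
/-- the bijection of the cosets -/
def WH_eq (θ : FreeGroup α ≃* FreeGroup α) (H : Subgroup (FreeGroup α)) :
    (FreeGroup α ⧸ H.comap θ.toMonoidHom) ≃ (FreeGroup α ⧸ H) :=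
  Quotient.congr θ.toEquiv (WH_rel θ H)

omit [Fintype α] [DecidableEq α] in
theorem WH_eq_mk (θ : FreeGroup α ≃* FreeGroup α) (H : Subgroup (FreeGroup α))
    (x : FreeGroup α) : WH_eq θ H (x : FreeGroup α ⧸ H.comap θ.toMonoidHom) =
      (θ x : FreeGroup α ⧸ H) := rfl

omit [Fintype α] [DecidableEq α] in
theorem WH_eq_smul (θ : FreeGroup α ≃* FreeGroup α) (H : Subgroup (FreeGroup α))
    (g : FreeGroup α) (v : FreeGroup α ⧸ H.comap θ.toMonoidHom) :
    WH_eq θ H (g • v) = θ g • WH_eq θ H v := by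
  induction v using QuotientGroup.induction_on with
  | H x =>
    rw [WH_eq_mk]
    show WH_eq θ H ((g * x : FreeGroup α) : FreeGroup α ⧸ H.comap θ.toMonoidHom) = _
    rw [WH_eq_mk, _root_.map_mul]
    rfl

omit [Fintype α] [DecidableEq α] in
theorem WH_stab (θ : FreeGroup α ≃* FreeGroup α) (H : Subgroup (FreeGroup α))
    (v : FreeGroup α ⧸ H.comap θ.toMonoidHom) :
    MulAction.stabilizer (FreeGroup α) v =
      (MulAction.stabilizer (FreeGroup α) (WH_eq θ H v)).comap θ.toMonoidHom := by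
  ext x
  rw [MulAction.mem_stabilizer_iff, Subgroup.mem_comap, MulAction.mem_stabilizer_iff]
  have h : θ.toMonoidHom x • WH_eq θ H v = WH_eq θ H (x • v) := (WH_eq_smul θ H x v).symm
  rw [h, (WH_eq θ H).injective.eq_iff]

theorem WH_N1 (A : Set (α × Bool)) (a : α × Bool) (ha : a ∈ A) (hna : nb a ∉ A)
    (H : Subgroup (FreeGroup α)) :
    (edg (H.comap (wa A a).toMonoidHom) a).ncard = (crs H A).ncard := by
  apply WH_ncard (WH_eq (wa A a) H)
  intro v
  show (a ∈ D (MulAction.stabilizer (FreeGroup α) v) ∧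
    (D (MulAction.stabilizer (FreeGroup α) v)).Nontrivial) ↔ _
  rw [WH_stab, WH_E1 A a ha hna]
  rfl

theorem WH_N2 (A : Set (α × Bool)) (a : α × Bool) (ha : a ∈ A) (hna : nb a ∉ A)
    (H : Subgroup (FreeGroup α)) (y : α × Bool) (h1 : y ≠ a) (h2 : y ≠ nb a) :
    (edg (H.comap (wa A a).toMonoidHom) y).ncard = (edg H y).ncard := by
  by_cases h3 : y ∈ A
  · apply WH_ncard ((WH_eq (wa A a) H).trans (MulAction.toPerm (lt a)))
    intro v
    show (y ∈ D (MulAction.stabilizer (FreeGroup α) v) ∧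
      (D (MulAction.stabilizer (FreeGroup α) v)).Nontrivial) ↔ _
    rw [WH_stab, WH_E3 A a ha hna _ y h1 h3, WH_cj_stab, inv_inv]
    rfl
  · apply WH_ncard (WH_eq (wa A a) H)
    intro v
    show (y ∈ D (MulAction.stabilizer (FreeGroup α) v) ∧
      (D (MulAction.stabilizer (FreeGroup α) v)).Nontrivial) ↔ _
    rw [WH_stab, WH_E2 A a ha hna _ y h2 h3]
    rfl

theorem WH_true (H : Subgroup (FreeGroup α)) (a : α × Bool) :
    (edg H (a.1, true)).ncard = (edg H a).ncard := by
  obtain ⟨x, b⟩ := a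
  cases b
  · exact WH_edg_nb H (x, false)
  · rfl

theorem whitehead (A : Set (α × Bool)) (a : α × Bool) (ha : a ∈ A) (hna : nb a ∉ A) :
    ∃ θ : FreeGroup α ≃* FreeGroup α,
      (∀ x, FreeGroup.norm (θ (of x)) ≤ 3 ∧ FreeGroup.norm (θ.symm (of x)) ≤ 3) ∧
      (∀ H : Subgroup (FreeGroup α),
        EE (H.comap θ.toMonoidHom) + (edg H a).ncard = EE H + (crs H A).ncard) ∧
      (∀ K : Subgroup (FreeGroup α), (D K).Nontrivial →
        (D (K.comap θ.toMonoidHom)).Nontrivial ∨
        (D ((cj K (lt a)).comap θ.toMonoidHom)).Nontrivial) := by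
  refine ⟨wa A a, ?_, ?_, ?_⟩
  · intro x
    have h1 : wa A a (of x) = tl A a (lt a) (x, true) := by
      rw [WH_wa_apply]
      exact WH_th_lt A a (lt a) (x, true)
    have h2 : (wa A a).symm (of x) = tl A a (lt a)⁻¹ (x, true) := by
      show th A a (lt a)⁻¹ (of x) = _
      exact WH_th_lt A a (lt a)⁻¹ (x, true)
    rw [h1, h2]
    exact ⟨WH_norm_tl A a _ (WH_norm_lt a) _,
      WH_norm_tl A a _ (by rw [FreeGroup.norm_inv_eq, WH_norm_lt]) _⟩
  · intro H
    unfold EE
    rw [← Finset.add_sum_erase Finset.univ _ (Finset.mem_univ a.1),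
      ← Finset.add_sum_erase Finset.univ (fun x => (edg H (x, true)).ncard)
        (Finset.mem_univ a.1)]
    rw [WH_true, WH_true, WH_N1 A a ha hna]
    have h : ∑ x ∈ Finset.univ.erase a.1, (edg (H.comap (wa A a).toMonoidHom) (x, true)).ncard =
        ∑ x ∈ Finset.univ.erase a.1, (edg H (x, true)).ncard := by
      apply Finset.sum_congr rfl
      intro x hx
      have hx' : x ≠ a.1 := (Finset.mem_erase.mp hx).1
      apply WH_N2 A a ha hna
      · rintro rfl
        exact hx' rfl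
      · intro h
        exact hx' (congrArg Prod.fst h)
    rw [h]
    ring
  · intro K hK
    by_cases hcr : (D K ∩ A).Nonempty ∧ (D K ∩ Aᶜ).Nonempty
    · exact Or.inl ((WH_E1 A a ha hna K).mpr hcr).2
    · obtain ⟨y, hy, z, hz, hyz⟩ := hK
      by_cases hA : (D K ∩ Aᶜ).Nonempty
      · -- all directions are outside of `A`
        have hout : ∀ w ∈ D K, w ∉ A := fun w hw hwA => hcr ⟨⟨w, hw, hwA⟩, hA⟩
        left
        have key : ∀ w ∈ D K, w ≠ nb a → (D K).Nontrivial →
            (D (K.comap (wa A a).toMonoidHom)).Nontrivial := by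
          intro w hw hne hn
          exact ((WH_E2 A a ha hna K w hne (hout w hw)).mpr ⟨hw, hn⟩).2
        by_cases h : y = nb a
        · exact key z hz (by rintro rfl; exact hyz h) ⟨y, hy, z, hz, hyz⟩
        · exact key y hy h ⟨y, hy, z, hz, hyz⟩
      · have hin : ∀ w ∈ D K, w ∈ A := by
          intro w hw
          by_contra hc
          exact hA ⟨w, hw, hc⟩
        right
        have key : ∀ w ∈ D K, w ≠ a → (D K).Nontrivial →
            (D ((cj K (lt a)).comap (wa A a).toMonoidHom)).Nontrivial := by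
          intro w hw hne hn
          refine ((WH_E3 A a ha hna (cj K (lt a)) w hne (hin w hw)).mpr ?_).2
          rw [WH_cj_cj]
          exact ⟨hw, hn⟩
        by_cases h : y = a
        · exact key z hz (by rintro rfl; exact hyz h) ⟨y, hy, z, hz, hyz⟩
        · exact key y hy h ⟨y, hy, z, hz, hyz⟩

end WH

end Pool.Agent.helper22.EC
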