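import Pool.Agent.helper4.EC.Spec

/-!
# ec:C4: chordal graphs have no induced cycles of length four and five
-/

set_option autoImplicit false

namespace Pool.Agent.helper4.EC

open Finset

universe u

theorem C4 (h1 : W1_stmt.{u}) : C4_stmt.{u} := by
  intro V G hG
  constructor
  · intro a b c d hab hbc hcd hda hac hbd
    by_contra hno
    rw [not_or] at hno
    obtain ⟨n1, n2⟩ := hno
    have htw : TW G 3 (fun i : ℕ => if i = 0 then a else if i = 1 then b else if i = 2 then c else d) := by
      constructor
      · intro i hi
        have h : i = 0 ∨ i = 1 ∨ i = 2 := by omega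
        rcases h with rfl | rfl | rfl
        · exact hab
        · exact hbc
        · exact hcd
      · intro i hi
        have h : i = 0 ∨ i = 1 := by omega
        rcases h with rfl | rfl
        · exact ⟨hac, n1⟩
        · exact ⟨hbd, n2⟩
    have h := (h1 V G hG 3 _ htw 0 3 (by omega) (by omega)).2
    exact h hda.symm
  · intro a b c d e hab hbc hcd hde hea hac nac hbd nbd hce nce
    have htw : TW G 4 (fun i : ℕ => if i = 0 then a else if i = 1 then b else if i = 2 then c else
        if i = 3 then d else e) := by
      constructor
      · intro i hi
        have h : i = 0 ∨ i = 1 ∨ i = 2 ∨ i = 3 := by omega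
        rcases h with rfl | rfl | rfl | rfl
        · exact hab
        · exact hbc
        · exact hcd
        · exact hde
      · intro i hi
        have h : i = 0 ∨ i = 1 ∨ i = 2 := by omega
        rcases h with rfl | rfl | rfl
        · exact ⟨hac, nac⟩
        · exact ⟨hbd, nbd⟩
        · exact ⟨hce, nce⟩
    have h := (h1 V G hG 4 _ htw 0 4 (by omega) (by omega)).2
    exact h hea.symm

end Pool.Agent.helper4.EC
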